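import Mathlib
import Pool.Agent.N290.RK.Stm2
import Pool.Agent.N290.RJ.SmR
import Pool.Agent.N704.RJ.S2S3

/-!
# Project RK (helper290), task XF: estimates of the dilated function
-/

set_option autoImplicit false

open Complex MeasureTheory Set Filter Topology
open scoped ENNReal

namespace Pool.Agent.N558.RK

open Pool.Agent.N290.RJ Pool.Agent.N290.RK

theorem XF_proof (d : ℕ) : Pool.Agent.N290.RK.XF d := by
  intro K C A L ε₂ φ χ h ω f hD j z hz
  have h2 : Pool.Agent.N290.RJ.S2 d := Pool.Agent.N704.RJ.S2 d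
  have h3 : Pool.Agent.N290.RJ.S3 d := Pool.Agent.N704.RJ.S3 d
  have hK := hD.hK
  have hK0 : 0 ≤ K := by linarith
  have hA : 0 < A := by have := hD.hA; have := hD.hL; linarith
  have hω := hD.slow
  have hf := hD.f1
  set r := rad j with hr
  set r' := rad (j + 1) with hr'
  have hr0 : 0 ≤ r := rad_nonneg j
  have hr1 : r ≤ 1 := (rad_lt_one j).le
  have hr0' : 0 ≤ r' := rad_nonneg (j + 1)
  have hr1' : r' ≤ 1 := (rad_lt_one (j + 1)).le
  have hrr : r' - r = (1 / 2) ^ (j + 1) := rad_succ j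
  have hrr' : r ≤ r' := by
    have : (0 : ℝ) < (1 / 2) ^ (j + 1) := by positivity
    linarith
  have hx := x_pos hz
  have hrp := r_pos hz hr1
  have hrp' := r_pos hz hr1'
  have hn := nm_nonneg z
  have hfR : ∀ z ∈ (B d), ∀ ξ, ‖fderiv ℝ f z ξ‖ ≤ ω (1 - N z) * len z ξ := by
    intro z hz ξ
    rw [fderivR_eq (da_hol hf hz)]
    exact hD.f3 z hz ξ
  have hra' : ∀ t : ℝ, 0 ≤ t → t ≤ 1 →
      ω (1 - N (t • z)) ≤ K * ω (1 - N z) * (uu z t)⁻¹ := by
    intro t h0 h1
    have := reg_rad hK0 (fun t => (hω.2.1 t).1) hω.2.2 hz h0 h1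
    rw [uu_inv hz h1] at this
    linarith [this, mul_right_comm K (ω (1 - N z)) (uu z t)⁻¹]
  have hω0 : 0 ≤ ω (1 - N z) := (hω.2.1 _).1
  have hst : st j z = (r' - r) * nm z / (1 - r' * nm z) := rfl
  set u := uu z r with hu
  set u' := uu z r' with hu'
  have hu0 : 0 < u := uu_pos hz hr1
  have hu0' : 0 < u' := uu_pos hz hr1'
  rw [hst]
  set s := (r' - r) * nm z / (1 - r' * nm z) with hs
  have hs0 : 0 ≤ s := div_nonneg (mul_nonneg (by linarith) hn) hrp'.le
  have hs1 : s ≤ 1 := by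
    rw [hs, div_le_one hrp']
    have h5 : r' = 1 - (1 / 2) ^ (j + 1) := rfl
    rw [hrr, h5]
    nlinarith
  have hus : u' ^ 8 = u ^ 8 * (1 + s) := by
    rw [hu, hu', uu_pow hz hr1, uu_pow hz hr1', hs]
    have e1 := hrp.ne'
    have e2 := hrp'.ne'
    have e3 : 1 + (r' - r) * nm z / (1 - r' * nm z) = (1 - r * nm z) / (1 - r' * nm z) := by
      rw [eq_div_iff e2, add_mul, div_mul_cancel₀ _ e2]; ring
    rw [e3, div_mul_div_cancel₀ e1]
  have hu2 : u' ≤ 2 * u := by
    refine le_of_pow_le_pow_left₀ (n := 8) (by norm_num) (by positivity) ?_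
    rw [hus]
    have h3 : 0 ≤ u ^ 8 := by positivity
    have h4 : (2 * u) ^ 8 = u ^ 8 * 256 := by ring
    rw [h4]
    exact mul_le_mul_of_nonneg_left (by linarith) h3
  have hmem := smul_mem_B hz hr0 hr1
  have hd1 : ‖f (r' • z) - f (r • z)‖ ≤ al A h j z / A * s := by
    have e1 : al A h j z / A = h (1 - N (r • z)) := by
      unfold al
      rw [mul_div_assoc, mul_div_cancel₀ _ hA.ne']
    rw [e1]
    refine h3 f z r r' _ ((cd_hol hf).differentiableOn (by norm_num)) hz hr0 hrr' hr1'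
      (fun t ht0 ht1 η => ?_)
    have hm := smul_mem_B hz (hr0.trans ht0) (ht1.trans hr1')
    refine (hfR _ hm η).trans (mul_le_mul_of_nonneg_right ?_ (len_nonneg _ _))
    have hN : N (r • z) ≤ N (t • z) := by
      rw [N_smul, N_smul]
      exact mul_le_mul_of_nonneg_right (pow_le_pow_left₀ hr0 ht0 2) (N_nonneg z)
    refine (hω.1 (by linarith : 1 - N (t • z) ≤ 1 - N (r • z))).trans ?_
    exact (hD.h3 _ (sub_pos.2 hmem) (by linarith [N_nonneg (r • z)])).1
  have hai : ∀ t, r ≤ t → t ≤ r' → (uu z t)⁻¹ ≤ u⁻¹ := fun t ht0 ht1 =>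
    inv_anti₀ hu0 (uu_mono hz ht0 (ht1.trans hr1'))
  have hd2 : ‖f (r' • z) - f (r • z)‖ ≤ K * (ω (1 - N z) / u) * s := by
    have := h3 f z r r' (K * ω (1 - N z) * u⁻¹) ((cd_hol hf).differentiableOn (by norm_num)) hz hr0
      hrr' hr1' (fun t ht0 ht1 η => by
        have hmem := smul_mem_B hz (hr0.trans ht0) (ht1.trans hr1')
        refine (hfR _ hmem η).trans ?_
        refine mul_le_mul_of_nonneg_right ?_ (len_nonneg _ _)
        refine (hra' t (hr0.trans ht0) (ht1.trans hr1')).trans ?_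
        exact mul_le_mul_of_nonneg_left (hai t ht0 ht1) (by positivity))
    refine this.trans (le_of_eq ?_)
    rw [hs]; ring
  refine ⟨hs0, hs1, hu0, uu_le_one hz hr1, hus, hu2, hd1, hd2, fun ξ => ?_⟩
  have hdf : DifferentiableAt ℂ (fun w => f (r • w)) z :=
    (dil_hasFDerivAt (da_hol hf hmem)).differentiableAt
  have hxj : fderiv ℝ (fun w => f (r • w)) z = (fderiv ℂ (fun w => f (r • w)) z).restrictScalars ℝ :=
    hdf.fderiv_restrictScalars ℝ
  have hxj2 : ∀ η, fderiv ℝ (fun w => f (r • w)) z η = xj f j z η := by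
    intro η
    rw [hxj]
    show fderiv ℂ (fun w => f (r • w)) z η = _
    rw [dil_fderiv (da_hol hf hmem)]
    rfl
  refine ⟨?_, hxj2 ξ, db_hol hdf ξ, ?_⟩
  · show ‖fderiv ℂ f (r • z) (r • ξ)‖ ≤ _
    refine (hD.f3 _ hmem _).trans ?_
    rw [len_smul hr0]
    have h5 := ray_bound h2 hz hr0 hr1 (A := ω (1 - N (r • z))) (A₀ := K * ω (1 - N z))
      (hra' r hr0 hr1) (by positivity) ξ
    have h6 : 0 ≤ ω (1 - N (r • z)) * len (r • z) ξ :=
      mul_nonneg (hω.2.1 _).1 (len_nonneg _ _)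
    calc ω (1 - N (r • z)) * (r * len (r • z) ξ)
        = r * (ω (1 - N (r • z)) * len (r • z) ξ) := by ring
      _ ≤ 1 * (ω (1 - N (r • z)) * len (r • z) ξ) := mul_le_mul_of_nonneg_right hr1 h6
      _ ≤ 3 / 2 * (K * ω (1 - N z)) * uu z r ^ 3 * len z ξ := by rw [one_mul]; exact h5
      _ = _ := by ring
  · have hreal : DifferentiableAt ℝ (fun w => f (r • w)) z := hdf.restrictScalars ℝ
    have hc : HasFDerivAt (fun w => starRingEnd ℂ (f (r • w)))
        ((Complex.conjCLE : ℂ →L[ℝ] ℂ).comp (fderiv ℝ (fun w => f (r • w)) z)) z :=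
      (Complex.conjCLE : ℂ →L[ℝ] ℂ).hasFDerivAt.comp z hreal.hasFDerivAt
    unfold db
    rw [hc.fderiv]
    have e2 : xj f j z (I • ξ) = I * xj f j z ξ := by
      unfold xj
      rw [smul_comm (rad j) I ξ, map_smul, smul_eq_mul]
    simp only [ContinuousLinearMap.comp_apply, hxj2, e2]
    show (starRingEnd ℂ (xj f j z ξ) + I * starRingEnd ℂ (I * xj f j z ξ)) / 2 = _
    rw [map_mul, Complex.conj_I]
    have : I * (-I * starRingEnd ℂ (xj f j z ξ)) = starRingEnd ℂ (xj f j z ξ) := by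
      rw [← mul_assoc, mul_neg, Complex.I_mul_I, neg_neg, one_mul]
    rw [this]
    ring

end Pool.Agent.N558.RK
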